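import Mathlib

/-!
# Schatten norms and the functional calculus of contractions: definitions
-/

set_option autoImplicit false

open scoped ENNReal InnerProductSpace

namespace Pool.Agent.Q186.Sch

/-- `f` is Lipschitz on the unit circle. -/
def LipOnCircle (f : ℂ → ℂ) : Prop :=
  ∃ C : ℝ, ∀ z w : ℂ, ‖z‖ = 1 → ‖w‖ = 1 → ‖f z - f w‖ ≤ C * ‖z - w‖

/-- On the unit circle `f` agrees with an element of the disk algebra. -/
def InDiskAlgebra (f : ℂ → ℂ) : Prop :=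
  ∃ g : ℂ → ℂ, ContinuousOn g (Metric.closedBall 0 1) ∧
    DifferentiableOn ℂ g (Metric.ball 0 1) ∧ ∀ z : ℂ, ‖z‖ = 1 → g z = f z

section basic

variable {H : Type*} [NormedAddCommGroup H] [InnerProductSpace ℂ H] [CompleteSpace H]

/-- `T ^ n` for `n ≥ 0` and `(T^*) ^ |n|` for `n < 0`. -/
noncomputable def powZ (T : H →L[ℂ] H) (n : ℤ) : H →L[ℂ] H :=
  if 0 ≤ n then T ^ n.toNat else (ContinuousLinearMap.adjoint T) ^ (-n).toNat

/-- The operator `∑ a n T ^ n` (sum over `-N ≤ n ≤ N`, with `(T^*) ^ |n|` for negative `n`). -/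
noncomputable def trigOp (N : ℕ) (a : ℤ → ℂ) (T : H →L[ℂ] H) : H →L[ℂ] H :=
  ∑ n ∈ Finset.Icc (-(N : ℤ)) N, a n • powZ T n

/-- `U` is a unitary dilation of `T`, where `H` is embedded in `K` by `J`. -/
def IsDilation {K : Type*} [NormedAddCommGroup K] [InnerProductSpace ℂ K] [CompleteSpace K]
    (T : H →L[ℂ] H) (J : H →ₗᵢ[ℂ] K) (U : K →L[ℂ] K) : Prop :=
  U ∈ unitary (K →L[ℂ] K) ∧ ∀ (n : ℕ) (x y : H), ⟪J x, (U ^ n) (J y)⟫_ℂ = ⟪x, (T ^ n) y⟫_ℂ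

/-- `A = f(T)`: on the one hand `A` is the compression of `f(U)` for every unitary dilation `U`
of `T`, on the other hand `A` is the limit of the operators `q(T)` for trigonometric polynomials
`q` converging to `f` uniformly on the unit circle. -/
def IsCalc (f : ℂ → ℂ) (T A : H →L[ℂ] H) : Prop :=
  (∀ (K : Type) [NormedAddCommGroup K] [InnerProductSpace ℂ K] [CompleteSpace K]
    (J : H →ₗᵢ[ℂ] K) (U : K →L[ℂ] K), IsDilation T J U →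
      ∀ x y : H, ⟪J x, (cfc f U) (J y)⟫_ℂ = ⟪x, A y⟫_ℂ) ∧
  (∀ ε : ℝ, 0 < ε → ∃ (N : ℕ) (a : ℤ → ℂ),
    (∀ z : ℂ, ‖z‖ = 1 → ‖f z - ∑ n ∈ Finset.Icc (-(N : ℤ)) N, a n * z ^ n‖ ≤ ε) ∧
      ‖A - trigOp N a T‖ ≤ ε)

/-- The Schatten `p`-norm in `[0, ∞]`: the supremum of `(∑ k, |⟪X e_k, g_k⟫| ^ p) ^ (1 / p)` over
all finite orthonormal families `(e_k)` and `(g_k)` of the same length. -/
noncomputable def schatten (p : ℝ) (X : H →L[ℂ] H) : ℝ≥0∞ :=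
  ⨆ (n : ℕ) (e : Fin n → H) (g : Fin n → H) (_ : Orthonormal ℂ e) (_ : Orthonormal ℂ g),
    (∑ k, ENNReal.ofReal (‖⟪X (e k), g k⟫_ℂ‖ ^ p)) ^ (1 / p)

end basic

/-- The configuration asked for on a Hilbert space `H`: contractions `T1` and `T0 n` with
`sup ‖T1 - T0 n‖_p < ∞`, `‖T0 n‖ ↑ 1` and `‖f(T1) - f(T0 n)‖_p ↑ ∞`. -/
def BadSequence (H : Type*) [NormedAddCommGroup H] [InnerProductSpace ℂ H] [CompleteSpace H]
    (p : ℝ) (f : ℂ → ℂ) : Prop :=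
  ∃ (T1 A1 : H →L[ℂ] H) (T0 A0 : ℕ → (H →L[ℂ] H)),
    ‖T1‖ ≤ 1 ∧ (∀ n, ‖T0 n‖ ≤ 1) ∧ IsCalc f T1 A1 ∧ (∀ n, IsCalc f (T0 n) (A0 n)) ∧
    (⨆ n, schatten p (T1 - T0 n)) < ∞ ∧
    Monotone (fun n => ‖T0 n‖) ∧ Filter.Tendsto (fun n => ‖T0 n‖) Filter.atTop (nhds 1) ∧
    Monotone (fun n => schatten p (A1 - A0 n)) ∧
    Filter.Tendsto (fun n => schatten p (A1 - A0 n)) Filter.atTop (nhds ∞)

end Pool.Agent.Q186.Sch
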