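import Mathlib
import Pool.Agent.Q186.Sch.Defs

set_option autoImplicit false

open scoped ENNReal InnerProductSpace
open Filter Topology

namespace Pool.Agent.Q186.Sch

variable {ι : Type}

/-- the Hilbert space `ℓ²(ι)` -/
noncomputable abbrev HS (ι : Type) := lp (fun _ : ι => ℂ) 2

lemma memHS (f : ι → ℂ) : Memℓp f 2 ↔ Summable fun i => ‖f i‖ ^ 2 := by
  have h := memℓp_gen_iff (E := fun _ : ι => ℂ) (p := 2) (f := f) (by norm_num)
  simpa using h

lemma normHS (f : HS ι) : ‖f‖ ^ 2 = ∑' i, ‖f i‖ ^ 2 := by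
  have h := lp.norm_rpow_eq_tsum (E := fun _ : ι => ℂ) (p := 2) (by norm_num) f
  simpa using h

lemma summHS (f : HS ι) : Summable fun i => ‖f i‖ ^ 2 := (memHS _).1 (lp.memℓp f)

/-- boundedness of a family -/
def Bdd (a : ι → ℂ) : Prop := ∃ C, ∀ i, ‖a i‖ ≤ C

lemma diag_sum {a : ι → ℂ} {C : ℝ} (h : ∀ i, ‖a i‖ ≤ C) (f : HS ι) :
    (Summable fun i => ‖a i * f i‖ ^ 2) ∧ ∑' i, ‖a i * f i‖ ^ 2 ≤ C ^ 2 * ∑' i, ‖f i‖ ^ 2 := by
  have h1 : ∀ i, ‖a i * f i‖ ^ 2 ≤ C ^ 2 * ‖f i‖ ^ 2 := by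
    intro i
    rw [norm_mul, mul_pow]
    have := h i
    gcongr
  have h2 : Summable fun i => C ^ 2 * ‖f i‖ ^ 2 := (summHS f).mul_left _
  have h3 : Summable fun i => ‖a i * f i‖ ^ 2 :=
    Summable.of_nonneg_of_le (fun i => by positivity) h1 h2
  refine ⟨h3, ?_⟩
  rw [← tsum_mul_left]
  exact h3.tsum_le_tsum h1 h2

open Classical in
/-- the diagonal operator with the entries `a i` -/
noncomputable def dg (a : ι → ℂ) : HS ι →L[ℂ] HS ι :=
  if h : Bdd a then
    LinearMap.mkContinuous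
      { toFun := fun f => ⟨fun i => a i * f i, (memHS _).2 (diag_sum h.choose_spec f).1⟩
        map_add' := fun f g => by
          ext i
          simp only [lp.coeFn_add, Pi.add_apply]
          ring
        map_smul' := fun c f => by
          ext i
          simp only [lp.coeFn_smul, Pi.smul_apply, smul_eq_mul, RingHom.id_apply]
          ring } |h.choose| (fun f => by
        refine le_of_sq_le_sq ?_ (by positivity)
        rw [mul_pow, sq_abs, normHS, normHS]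
        exact (diag_sum h.choose_spec f).2)
  else 0

lemma dg_apply {a : ι → ℂ} (h : Bdd a) (f : HS ι) (i : ι) : dg a f i = a i * f i := by
  unfold dg; rw [dif_pos h]; rfl

lemma norm_dg_le {a : ι → ℂ} {C : ℝ} (hC : 0 ≤ C) (h : ∀ i, ‖a i‖ ≤ C) : ‖dg a‖ ≤ C := by
  refine ContinuousLinearMap.opNorm_le_bound _ hC fun f => ?_
  refine le_of_sq_le_sq ?_ (by positivity)
  rw [mul_pow, normHS, normHS]
  have h2 : ∑' i, ‖dg a f i‖ ^ 2 = ∑' i, ‖a i * f i‖ ^ 2 :=
    tsum_congr fun i => by rw [dg_apply ⟨C, h⟩]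
  rw [h2]
  exact (diag_sum h f).2

lemma Bdd.mul {a b : ι → ℂ} (ha : Bdd a) (hb : Bdd b) : Bdd (fun i => a i * b i) := by
  obtain ⟨C, hC⟩ := ha
  obtain ⟨D, hD⟩ := hb
  refine ⟨|C| * |D|, fun i => ?_⟩
  rw [norm_mul]
  exact mul_le_mul ((hC i).trans (le_abs_self _)) ((hD i).trans (le_abs_self _)) (norm_nonneg _)
    (abs_nonneg _)

lemma Bdd.add {a b : ι → ℂ} (ha : Bdd a) (hb : Bdd b) : Bdd (fun i => a i + b i) := by
  obtain ⟨C, hC⟩ := ha
  obtain ⟨D, hD⟩ := hb
  exact ⟨C + D, fun i => (norm_add_le _ _).trans (add_le_add (hC i) (hD i))⟩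

lemma Bdd.sub {a b : ι → ℂ} (ha : Bdd a) (hb : Bdd b) : Bdd (fun i => a i - b i) := by
  obtain ⟨C, hC⟩ := ha
  obtain ⟨D, hD⟩ := hb
  exact ⟨C + D, fun i => (norm_sub_le _ _).trans (add_le_add (hC i) (hD i))⟩

lemma Bdd.const (c : ℂ) : Bdd (fun _ : ι => c) := ⟨‖c‖, fun _ => le_rfl⟩

lemma Bdd.pow {a : ι → ℂ} (ha : Bdd a) (n : ℕ) : Bdd (fun i => a i ^ n) := by
  induction n with
  | zero => simpa using Bdd.const 1
  | succ n ih =>
    have := ih.mul ha
    simpa [pow_succ] using this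

lemma dg_one : dg (fun _ : ι => (1 : ℂ)) = 1 := by
  ext f i
  rw [dg_apply (Bdd.const 1), one_mul]; rfl

lemma dg_add {a b : ι → ℂ} (ha : Bdd a) (hb : Bdd b) :
    dg (fun i => a i + b i) = dg a + dg b := by
  ext f i
  rw [dg_apply (ha.add hb), add_apply, lp.coeFn_add, Pi.add_apply, dg_apply ha, dg_apply hb]
  ring

lemma dg_sub {a b : ι → ℂ} (ha : Bdd a) (hb : Bdd b) :
    dg (fun i => a i - b i) = dg a - dg b := by
  ext f i
  rw [dg_apply (ha.sub hb), sub_apply, lp.coeFn_sub, Pi.sub_apply, dg_apply ha, dg_apply hb]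
  ring

lemma dg_mul {a b : ι → ℂ} (ha : Bdd a) (hb : Bdd b) :
    dg (fun i => a i * b i) = dg a * dg b := by
  ext f i
  rw [dg_apply (ha.mul hb), mul_apply_eq_comp, dg_apply ha, dg_apply hb]
  ring

lemma dg_smul {a : ι → ℂ} (ha : Bdd a) (c : ℂ) : dg (fun i => c * a i) = c • dg a := by
  ext f i
  have h : (c • dg a) f = c • dg a f := rfl
  rw [dg_apply ((Bdd.const c).mul ha), h, lp.coeFn_smul, Pi.smul_apply, dg_apply ha, smul_eq_mul]
  ring

lemma dg_pow {a : ι → ℂ} (ha : Bdd a) (n : ℕ) : dg (fun i => a i ^ n) = dg a ^ n := by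
  induction n with
  | zero => simpa using dg_one
  | succ n ih =>
    rw [pow_succ, ← ih, ← dg_mul (ha.pow n) ha]
    simp [pow_succ]

lemma dg_adjoint {a : ι → ℂ} (ha : Bdd a) (hr : ∀ i, (starRingEnd ℂ) (a i) = a i) :
    ContinuousLinearMap.adjoint (dg a) = dg a := by
  symm
  rw [ContinuousLinearMap.eq_adjoint_iff]
  intro x y
  rw [lp.inner_eq_tsum, lp.inner_eq_tsum]
  refine tsum_congr fun i => ?_
  rw [dg_apply ha, dg_apply ha]
  simp only [RCLike.inner_apply, map_mul, hr]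
  ring

lemma single_apply [DecidableEq ι] (i k : ι) (c : ℂ) :
    (lp.single 2 i c : HS ι) k = if k = i then c else 0 := by
  by_cases h : k = i
  · subst h; rw [if_pos rfl]; exact lp.single_apply_self (E := fun _ : ι => ℂ) 2 k c
  · rw [if_neg h]; exact lp.single_apply_ne (E := fun _ : ι => ℂ) 2 i c h

lemma dg_single [DecidableEq ι] {a : ι → ℂ} (ha : Bdd a) (i : ι) :
    dg a (lp.single 2 i (1 : ℂ) : HS ι) = a i • (lp.single 2 i (1 : ℂ) : HS ι) := by
  ext k
  rw [dg_apply ha, lp.coeFn_smul, Pi.smul_apply, single_apply, smul_eq_mul]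
  by_cases h : k = i
  · subst h; rfl
  · rw [if_neg h, mul_zero, mul_zero]

/-! ### Schatten norms of diagonal operators -/

lemma jensen (s : Finset ι) (w z : ι → ℝ) (hw : ∀ i ∈ s, 0 ≤ w i) (hw1 : ∑ i ∈ s, w i ≤ 1)
    (hz : ∀ i ∈ s, 0 ≤ z i) {p : ℝ} (hp : 1 ≤ p) :
    (∑ i ∈ s, w i * z i) ^ p ≤ ∑ i ∈ s, w i * z i ^ p := by
  set W := ∑ i ∈ s, w i with hW
  have hW0 : 0 ≤ W := Finset.sum_nonneg hw
  rcases hW0.eq_or_lt with h | h
  · have h1 : ∀ i ∈ s, w i = 0 := (Finset.sum_eq_zero_iff_of_nonneg hw).1 h.symm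
    have h2 : ∑ i ∈ s, w i * z i = 0 := Finset.sum_eq_zero fun i hi => by rw [h1 i hi, zero_mul]
    have h3 : ∑ i ∈ s, w i * z i ^ p = 0 :=
      Finset.sum_eq_zero fun i hi => by rw [h1 i hi, zero_mul]
    rw [h2, h3, Real.zero_rpow (by linarith)]
  · have h1 := Real.rpow_arith_mean_le_arith_mean_rpow s (fun i => w i / W) z
      (fun i hi => div_nonneg (hw i hi) hW0) (by rw [← Finset.sum_div]; exact div_self h.ne') hz hp
    have h2 : ∑ i ∈ s, w i / W * z i = (∑ i ∈ s, w i * z i) / W := by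
      rw [Finset.sum_div]; exact Finset.sum_congr rfl fun i _ => by ring
    have h3 : ∑ i ∈ s, w i / W * z i ^ p = (∑ i ∈ s, w i * z i ^ p) / W := by
      rw [Finset.sum_div]; exact Finset.sum_congr rfl fun i _ => by ring
    have h4 : 0 ≤ ∑ i ∈ s, w i * z i :=
      Finset.sum_nonneg fun i hi => mul_nonneg (hw i hi) (hz i hi)
    have h5 : 0 ≤ ∑ i ∈ s, w i * z i ^ p :=
      Finset.sum_nonneg fun i hi => mul_nonneg (hw i hi) (Real.rpow_nonneg (hz i hi) _)
    rw [h2, h3, Real.div_rpow h4 hW0, div_le_div_iff₀ (Real.rpow_pos_of_pos h p) h] at h1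
    have h6 : W ^ p ≤ W := by
      have := Real.rpow_le_rpow_of_exponent_ge h hw1 hp
      simpa using this
    have h7 : (∑ i ∈ s, w i * z i) ^ p * W ≤ (∑ i ∈ s, w i * z i ^ p) * W :=
      h1.trans (mul_le_mul_of_nonneg_left h6 h5)
    exact le_of_mul_le_mul_right h7 h

lemma inner_dg_le (S : Finset ι) {a : ι → ℂ} (ha : Bdd a) (hS : ∀ i, i ∉ S → a i = 0)
    (e g : HS ι) : ‖⟪dg a e, g⟫_ℂ‖ ≤ ∑ i ∈ S, ((‖e i‖ ^ 2 + ‖g i‖ ^ 2) / 2) * ‖a i‖ := by
  rw [lp.inner_eq_tsum, tsum_eq_sum (s := S)]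
  · refine (norm_sum_le _ _).trans (Finset.sum_le_sum fun i _ => ?_)
    rw [dg_apply ha]
    refine (norm_inner_le_norm _ _).trans ?_
    rw [norm_mul]
    nlinarith [norm_nonneg (a i), norm_nonneg (e i), norm_nonneg (g i),
      mul_nonneg (norm_nonneg (a i)) (sq_nonneg (‖e i‖ - ‖g i‖))]
  · intro i hi
    rw [dg_apply ha, hS i hi, zero_mul, inner_zero_left]

lemma sum_sq_le (S : Finset ι) (e : HS ι) (he : ‖e‖ = 1) : ∑ i ∈ S, ‖e i‖ ^ 2 ≤ 1 := by
  have h1 := (summHS e).sum_le_tsum S fun _ _ => by positivity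
  rw [← normHS, he] at h1
  simpa using h1

lemma bessel [DecidableEq ι] {n : ℕ} {e : Fin n → HS ι} (he : Orthonormal ℂ e) (i : ι) :
    ∑ k, ‖e k i‖ ^ 2 ≤ 1 := by
  have h1 := he.sum_inner_products_le (x := (lp.single 2 i (1 : ℂ) : HS ι)) (s := Finset.univ)
  have h2 : ‖(lp.single 2 i (1 : ℂ) : HS ι)‖ = 1 := by
    rw [lp.norm_single (by norm_num)]; simp
  rw [h2] at h1
  have h3 : ∀ k, ‖⟪e k, (lp.single 2 i (1 : ℂ) : HS ι)⟫_ℂ‖ = ‖e k i‖ := by
    intro k
    rw [lp.inner_single_right]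
    simp
  simp only [h3] at h1
  simpa using h1

/-- the Schatten norm of a diagonal operator with finitely many nonzero entries -/
theorem schatten_dg [DecidableEq ι] (S : Finset ι) {a : ι → ℂ} (ha : Bdd a)
    (hS : ∀ i, i ∉ S → a i = 0) {p : ℝ} (hp : 1 ≤ p) :
    schatten p (dg a) = (ENNReal.ofReal (∑ i ∈ S, ‖a i‖ ^ p)) ^ (1 / p) := by
  have hp0 : 0 ≤ 1 / p := by positivity
  apply le_antisymm
  · unfold schatten
    refine iSup_le fun n => iSup_le fun e => iSup_le fun g => iSup_le fun he => iSup_le fun hg => ?_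
    apply ENNReal.rpow_le_rpow _ hp0
    rw [← ENNReal.ofReal_sum_of_nonneg fun k _ => by positivity]
    apply ENNReal.ofReal_le_ofReal
    have h1 : ∀ k, ‖⟪dg a (e k), g k⟫_ℂ‖ ^ p ≤
        ∑ i ∈ S, ((‖e k i‖ ^ 2 + ‖g k i‖ ^ 2) / 2) * ‖a i‖ ^ p := by
      intro k
      refine (Real.rpow_le_rpow (norm_nonneg _) (inner_dg_le S ha hS (e k) (g k))
        (by linarith)).trans ?_
      refine jensen S _ _ (fun i _ => by positivity) ?_ (fun i _ => norm_nonneg _) hp
      rw [← Finset.sum_div, Finset.sum_add_distrib]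
      have := sum_sq_le S (e k) (he.1 k)
      have := sum_sq_le S (g k) (hg.1 k)
      linarith
    calc ∑ k, ‖⟪dg a (e k), g k⟫_ℂ‖ ^ p
        ≤ ∑ k, ∑ i ∈ S, ((‖e k i‖ ^ 2 + ‖g k i‖ ^ 2) / 2) * ‖a i‖ ^ p :=
          Finset.sum_le_sum fun k _ => h1 k
      _ = ∑ i ∈ S, (∑ k, (‖e k i‖ ^ 2 + ‖g k i‖ ^ 2) / 2) * ‖a i‖ ^ p := by
          rw [Finset.sum_comm]
          exact Finset.sum_congr rfl fun i _ => by rw [Finset.sum_mul]
      _ ≤ ∑ i ∈ S, 1 * ‖a i‖ ^ p := by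
          refine Finset.sum_le_sum fun i _ => mul_le_mul_of_nonneg_right ?_ (by positivity)
          rw [← Finset.sum_div, Finset.sum_add_distrib]
          have := bessel he i
          have := bessel hg i
          linarith
      _ = ∑ i ∈ S, ‖a i‖ ^ p := by simp
  · unfold schatten
    set e : Fin S.card → HS ι := fun k => (lp.single 2 (S.equivFin.symm k : ι) (1 : ℂ) : HS ι)
      with hedef
    have he : Orthonormal ℂ e := by
      constructor
      · intro k
        rw [hedef]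
        simp only
        rw [lp.norm_single (by norm_num)]; simp
      · intro k l hkl
        rw [hedef]
        simp only
        rw [lp.inner_single_left, single_apply, if_neg]
        · simp
        · intro h
          apply hkl
          have := Subtype.ext h
          exact S.equivFin.symm.injective this
    refine le_iSup_of_le S.card (le_iSup_of_le e (le_iSup_of_le e (le_iSup_of_le he
      (le_iSup_of_le he ?_))))
    apply ENNReal.rpow_le_rpow _ hp0
    rw [← ENNReal.ofReal_sum_of_nonneg fun k _ => by positivity]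
    apply ENNReal.ofReal_le_ofReal
    have h1 : ∀ k, ‖⟪dg a (e k), e k⟫_ℂ‖ ^ p = ‖a (S.equivFin.symm k : ι)‖ ^ p := by
      intro k
      rw [hedef]
      simp only
      rw [dg_single ha, inner_smul_left, lp.inner_single_left, single_apply, if_pos rfl]
      simp
    rw [Finset.sum_congr rfl fun k _ => h1 k]
    rw [← Finset.sum_coe_sort S]
    exact (Equiv.sum_comp S.equivFin.symm fun i : S => ‖a (i : ι)‖ ^ p).ge

end Pool.Agent.Q186.Sch
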