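import Mathlib
import Pool.Agent.Q186.Sch.Defs
import Pool.Agent.Q186.Sch.Diag

set_option autoImplicit false

open scoped ENNReal InnerProductSpace
open Filter Topology

namespace Pool.Agent.Q186.Sch

/-- the terms of the series for `f` -/
noncomputable def tm (k : ℕ) (z : ℂ) : ℂ :=
  ((k + 1 : ℕ) : ℂ)⁻¹ ^ 2 * (2 - z ^ (k + 1) - (star z) ^ (k + 1))

/-- the function `f(z) = ∑ (2 - z ^ k - z ^ (-k)) / k ^ 2` (on the unit circle) -/
noncomputable def ff (z : ℂ) : ℂ := ∑' k, tm k z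

/-- the partial sums -/
noncomputable def qq (N : ℕ) (z : ℂ) : ℂ := ∑ k ∈ Finset.range N, tm k z

/-- the bound for the terms -/
noncomputable def bd (k : ℕ) : ℝ := 4 * (1 / (((k + 1 : ℕ) : ℝ)) ^ 2)

lemma bd_summable : Summable bd :=
  ((summable_nat_add_iff 1).2 (Real.summable_one_div_nat_pow.2 (by norm_num))).mul_left 4

lemma bd_nonneg (k : ℕ) : 0 ≤ bd k := by unfold bd; positivity

lemma tm_le {z : ℂ} (hz : ‖z‖ ≤ 1) (k : ℕ) : ‖tm k z‖ ≤ bd k := by
  unfold tm bd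
  rw [norm_mul, norm_pow, norm_inv, Complex.norm_natCast]
  have h1 : ‖z ^ (k + 1)‖ ≤ 1 := by rw [norm_pow]; exact pow_le_one₀ (norm_nonneg _) hz
  have h2 : ‖(star z) ^ (k + 1)‖ ≤ 1 := by
    rw [norm_pow, norm_star]; exact pow_le_one₀ (norm_nonneg _) hz
  have h3 : ‖2 - z ^ (k + 1) - (star z) ^ (k + 1)‖ ≤ 4 := by
    calc ‖2 - z ^ (k + 1) - (star z) ^ (k + 1)‖ ≤ ‖2 - z ^ (k + 1)‖ + ‖(star z) ^ (k + 1)‖ :=
          norm_sub_le _ _
      _ ≤ (‖(2 : ℂ)‖ + ‖z ^ (k + 1)‖) + ‖(star z) ^ (k + 1)‖ := by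
          gcongr; exact norm_sub_le _ _
      _ ≤ (2 + 1) + 1 := by
          gcongr
          norm_num
      _ = 4 := by norm_num
  calc (((k + 1 : ℕ) : ℝ)⁻¹) ^ 2 * ‖2 - z ^ (k + 1) - (star z) ^ (k + 1)‖
      ≤ (((k + 1 : ℕ) : ℝ)⁻¹) ^ 2 * 4 := by gcongr
    _ = 4 * (1 / (((k + 1 : ℕ) : ℝ)) ^ 2) := by rw [inv_pow]; ring

lemma tm_summable {z : ℂ} (hz : ‖z‖ ≤ 1) : Summable fun k => tm k z :=
  Summable.of_norm_bounded bd_summable (tm_le hz)

/-- the tail -/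
noncomputable def tail (N : ℕ) : ℝ := ∑' k, bd (k + N)

lemma tail_nonneg (N : ℕ) : 0 ≤ tail N := tsum_nonneg fun _ => bd_nonneg _

lemma tail_tendsto : Tendsto tail atTop (𝓝 0) := tendsto_sum_nat_add bd

lemma ff_sub_qq {z : ℂ} (hz : ‖z‖ ≤ 1) (N : ℕ) : ‖ff z - qq N z‖ ≤ tail N := by
  have h1 : ff z - qq N z = ∑' k, tm (k + N) z := by
    unfold ff qq
    rw [← (tm_summable hz).sum_add_tsum_nat_add N]; ring
  rw [h1]
  exact tsum_of_norm_bounded ((summable_nat_add_iff N).2 bd_summable).hasSum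
    fun k => tm_le hz _

lemma tm_continuous (k : ℕ) : Continuous (tm k) := by
  unfold tm; fun_prop

lemma qq_continuous (N : ℕ) : Continuous (qq N) := by
  unfold qq
  exact continuous_finsetSum _ fun k _ => tm_continuous k

lemma ff_continuousOn : ContinuousOn ff (Metric.closedBall 0 1) := by
  unfold ff
  refine continuousOn_tsum (fun k => (tm_continuous k).continuousOn) bd_summable ?_
  intro k z hz
  exact tm_le (by simpa using hz) k

lemma sumZ {M : Type*} [AddCommMonoid M] (h : ℤ → M) (N : ℕ) :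
    ∑ n ∈ Finset.Icc (-(N : ℤ)) N, h n =
      h 0 + ∑ k ∈ Finset.range N, (h ((k : ℤ) + 1) + h (-((k : ℤ) + 1))) := by
  induction N with
  | zero => simp
  | succ N ih =>
    have h1 : Finset.Icc (-((N + 1 : ℕ) : ℤ)) ((N + 1 : ℕ) : ℤ) =
        insert ((N : ℤ) + 1) (insert (-((N : ℤ) + 1)) (Finset.Icc (-(N : ℤ)) N)) := by
      ext x
      simp only [Finset.mem_Icc, Finset.mem_insert]
      push_cast
      omega
    rw [h1, Finset.sum_insert, Finset.sum_insert, ih, Finset.sum_range_succ]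
    · abel
    · simp only [Finset.mem_Icc]; omega
    · simp only [Finset.mem_insert, Finset.mem_Icc]; omega

/-- the coefficients of the partial sums -/
noncomputable def co (N : ℕ) (n : ℤ) : ℂ :=
  if n = 0 then ∑ k ∈ Finset.range N, ((k + 1 : ℕ) : ℂ)⁻¹ ^ 2 * 2 else -((n : ℂ)⁻¹ ^ 2)

lemma co_zero (N : ℕ) : co N 0 = ∑ k ∈ Finset.range N, ((k + 1 : ℕ) : ℂ)⁻¹ ^ 2 * 2 := by
  unfold co; rw [if_pos rfl]

lemma co_pos (N k : ℕ) : co N ((k : ℤ) + 1) = -(((k + 1 : ℕ) : ℂ)⁻¹ ^ 2) := by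
  unfold co; rw [if_neg (by omega)]; push_cast; rfl

lemma co_neg (N k : ℕ) : co N (-((k : ℤ) + 1)) = -(((k + 1 : ℕ) : ℂ)⁻¹ ^ 2) := by
  unfold co; rw [if_neg (by omega)]; push_cast
  rw [inv_neg, neg_sq]

lemma qq_eq (N : ℕ) {z : ℂ} (hz : ‖z‖ = 1) :
    ∑ n ∈ Finset.Icc (-(N : ℤ)) N, co N n * z ^ n = qq N z := by
  have hz0 : z ≠ 0 := by rintro rfl; simp at hz
  have hinv : z⁻¹ = star z := by
    rw [Complex.inv_def, Complex.normSq_eq_norm_sq, hz]; simp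
  rw [sumZ, co_zero]
  unfold qq tm
  rw [zpow_zero, mul_one, ← Finset.sum_add_distrib]
  refine Finset.sum_congr rfl fun k _ => ?_
  rw [co_pos, co_neg, zpow_neg]
  have h1 : z ^ ((k : ℤ) + 1) = z ^ (k + 1) := by
    rw [← zpow_natCast]; push_cast; rfl
  rw [h1, ← inv_pow, hinv]
  ring

section operators

variable {ι : Type} {t : ι → ℂ}

lemma Bdd_tm (ht : ∀ i, ‖t i‖ ≤ 1) (k : ℕ) : Bdd (fun i => tm k (t i)) :=
  ⟨bd k, fun i => tm_le (ht i) k⟩

lemma Bdd_ff (ht : ∀ i, ‖t i‖ ≤ 1) : Bdd (fun i => ff (t i)) :=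
  ⟨∑' k, bd k, fun i => tsum_of_norm_bounded bd_summable.hasSum (tm_le (ht i))⟩

lemma dg_tm (ht : ∀ i, ‖t i‖ ≤ 1) (hr : ∀ i, star (t i) = t i) (k : ℕ) :
    dg (fun i => tm k (t i)) =
      ((k + 1 : ℕ) : ℂ)⁻¹ ^ 2 • ((2 : ℂ) • (1 : HS ι →L[ℂ] HS ι) - dg t ^ (k + 1) - dg t ^ (k + 1)) := by
  have hb : Bdd t := ⟨1, ht⟩
  have h2 : Bdd fun _ : ι => (2 : ℂ) := Bdd.const 2
  have h1 : (fun i => tm k (t i)) =
      fun i => ((k + 1 : ℕ) : ℂ)⁻¹ ^ 2 * ((2 - t i ^ (k + 1)) - t i ^ (k + 1)) := by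
    funext i
    unfold tm
    rw [hr i]
  rw [h1, dg_smul ((h2.sub (hb.pow _)).sub (hb.pow _)), dg_sub (h2.sub (hb.pow _)) (hb.pow _),
    dg_sub h2 (hb.pow _), dg_pow hb]
  congr 3
  have h3 := dg_smul (ι := ι) (Bdd.const 1) (2 : ℂ)
  simp only [mul_one] at h3
  rw [h3, dg_one]

lemma Bdd_qq (ht : ∀ i, ‖t i‖ ≤ 1) (N : ℕ) : Bdd (fun i => qq N (t i)) := by
  induction N with
  | zero => simpa [qq] using Bdd.const (0 : ℂ)
  | succ N ih =>
    have := ih.add (Bdd_tm ht N)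
    simpa [qq, Finset.sum_range_succ] using this

lemma dg_qq (ht : ∀ i, ‖t i‖ ≤ 1) (N : ℕ) :
    dg (fun i => qq N (t i)) = ∑ k ∈ Finset.range N, dg (fun i => tm k (t i)) := by
  induction N with
  | zero =>
    ext f i
    rw [dg_apply (Bdd_qq ht 0)]
    simp [qq]
  | succ N ih =>
    rw [Finset.sum_range_succ, ← ih, ← dg_add (Bdd_qq ht N) (Bdd_tm ht N)]
    simp [qq, Finset.sum_range_succ]

lemma norm_dg_ff_sub (ht : ∀ i, ‖t i‖ ≤ 1) (N : ℕ) :
    ‖dg (fun i => ff (t i)) - dg (fun i => qq N (t i))‖ ≤ tail N := by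
  rw [← dg_sub (Bdd_ff ht) (Bdd_qq ht N)]
  exact norm_dg_le (tail_nonneg N) fun i => ff_sub_qq (ht i) N

lemma trigOp_eq (ht : ∀ i, ‖t i‖ ≤ 1) (hr : ∀ i, star (t i) = t i) (N : ℕ) :
    trigOp N (co N) (dg t) = dg (fun i => qq N (t i)) := by
  have hadj : ContinuousLinearMap.adjoint (dg t) = dg t := dg_adjoint ⟨1, ht⟩ hr
  rw [dg_qq ht]
  unfold trigOp
  rw [sumZ, co_zero]
  have h0 : powZ (dg t) 0 = 1 := by unfold powZ; simp
  rw [h0, Finset.sum_smul, ← Finset.sum_add_distrib]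
  refine Finset.sum_congr rfl fun k _ => ?_
  have h1 : powZ (dg t) ((k : ℤ) + 1) = dg t ^ (k + 1) := by
    unfold powZ
    rw [if_pos (by omega)]
    congr 1
  have h2 : powZ (dg t) (-((k : ℤ) + 1)) = dg t ^ (k + 1) := by
    unfold powZ
    rw [if_neg (by omega), hadj]
    congr 1
  rw [h1, h2, co_pos, co_neg, dg_tm ht hr, smul_sub, smul_sub, smul_smul, neg_smul]
  abel

/-- the functional calculus of a diagonal contraction with real entries -/
theorem isCalc_dg (ht : ∀ i, ‖t i‖ ≤ 1) (hr : ∀ i, star (t i) = t i) :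
    IsCalc ff (dg t) (dg (fun i => ff (t i))) := by
  constructor
  · intro K _ _ _ J U hU x y
    obtain ⟨hUu, hUd⟩ := hU
    have hnorm : IsStarNormal U := by
      constructor
      rw [commute_iff_eq, (Unitary.mem_iff.1 hUu).1, (Unitary.mem_iff.1 hUu).2]
    have hsp : spectrum ℂ U ⊆ Metric.closedBall 0 1 :=
      (spectrum.subset_circle_of_unitary hUu).trans Metric.sphere_subset_closedBall
    -- the partial sums
    have hq : ∀ N, cfc (qq N) U = ∑ k ∈ Finset.range N,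
        ((k + 1 : ℕ) : ℂ)⁻¹ ^ 2 • ((2 : ℂ) • (1 : K →L[ℂ] K) - U ^ (k + 1) - (star U) ^ (k + 1)) := by
      intro N
      have h1 : qq N = ∑ k ∈ Finset.range N, tm k := by
        funext z; unfold qq; rw [Finset.sum_apply]
      rw [h1, cfc_sum _ _ _ fun k _ => (tm_continuous k).continuousOn]
      refine Finset.sum_congr rfl fun k _ => ?_
      have h2 : tm k = fun z => ((k + 1 : ℕ) : ℂ)⁻¹ ^ 2 * ((2 - z ^ (k + 1)) - (star z) ^ (k + 1)) := by
        funext z; rfl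
      rw [h2, cfc_const_mul _ _ _ (by fun_prop), cfc_sub _ _ _ (by fun_prop) (by fun_prop),
        cfc_sub _ _ _ (by fun_prop) (by fun_prop), cfc_const _ _ hnorm, cfc_pow_id _ _ hnorm,
        cfc_pow _ _ _ (by fun_prop) hnorm, cfc_star_id (ha := hnorm), Algebra.algebraMap_eq_smul_one]
    -- the compression of the partial sums
    have hin : ∀ N, ⟪J x, (cfc (qq N) U) (J y)⟫_ℂ = ⟪x, dg (fun i => qq N (t i)) y⟫_ℂ := by
      intro N
      rw [hq, dg_qq ht]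
      have h1 : ∀ (s : Finset ℕ) (F : ℕ → K →L[ℂ] K), (∑ k ∈ s, F k) (J y) = ∑ k ∈ s, F k (J y) :=
        fun s F => by simp
      have h2 : ∀ (s : Finset ℕ) (F : ℕ → HS ι →L[ℂ] HS ι), (∑ k ∈ s, F k) y = ∑ k ∈ s, F k y :=
        fun s F => by simp
      rw [h1, h2, inner_sum, inner_sum]
      refine Finset.sum_congr rfl fun k _ => ?_
      rw [dg_tm ht hr]
      have h3 : ((((k + 1 : ℕ) : ℂ)⁻¹ ^ 2) •
          ((2 : ℂ) • (1 : K →L[ℂ] K) - U ^ (k + 1) - (star U) ^ (k + 1))) (J y) =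
          (((k + 1 : ℕ) : ℂ)⁻¹ ^ 2) • ((2 : ℂ) • J y - (U ^ (k + 1)) (J y) -
            ((star U) ^ (k + 1)) (J y)) := rfl
      have h4 : ((((k + 1 : ℕ) : ℂ)⁻¹ ^ 2) •
          ((2 : ℂ) • (1 : HS ι →L[ℂ] HS ι) - dg t ^ (k + 1) - dg t ^ (k + 1))) y =
          (((k + 1 : ℕ) : ℂ)⁻¹ ^ 2) • ((2 : ℂ) • y - (dg t ^ (k + 1)) y - (dg t ^ (k + 1)) y) := rfl
      rw [h3, h4, inner_smul_right, inner_smul_right, inner_sub_right, inner_sub_right,
        inner_sub_right, inner_sub_right, inner_smul_right, inner_smul_right, J.inner_map_map,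
        hUd]
      have h5 : ⟪J x, ((star U) ^ (k + 1)) (J y)⟫_ℂ = ⟪x, (dg t ^ (k + 1)) y⟫_ℂ := by
        rw [← star_pow, ContinuousLinearMap.star_eq_adjoint,
          ContinuousLinearMap.adjoint_inner_right, ← inner_conj_symm, hUd, inner_conj_symm]
        have h6 : ContinuousLinearMap.adjoint (dg t ^ (k + 1)) = dg t ^ (k + 1) := by
          rw [← ContinuousLinearMap.star_eq_adjoint, star_pow,
            ContinuousLinearMap.star_eq_adjoint, dg_adjoint ⟨1, ht⟩ hr]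
        conv_rhs => rw [← h6]
        rw [ContinuousLinearMap.adjoint_inner_right]
      rw [h5]
    -- pass to the limit
    have hlim1 : Tendsto (fun N => cfc (qq N) U) atTop (𝓝 (cfc ff U)) := by
      rw [tendsto_iff_norm_sub_tendsto_zero]
      refine squeeze_zero (fun _ => norm_nonneg _) (fun N => ?_) tail_tendsto
      rw [← norm_neg, neg_sub, ← cfc_sub _ _ _ (ff_continuousOn.mono hsp)
        (qq_continuous N).continuousOn]
      exact norm_cfc_le (tail_nonneg N) fun z hz => ff_sub_qq (by simpa using hsp hz) N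
    have hlim2 : Tendsto (fun N => dg (fun i => qq N (t i))) atTop (𝓝 (dg fun i => ff (t i))) := by
      rw [tendsto_iff_norm_sub_tendsto_zero]
      refine squeeze_zero (fun _ => norm_nonneg _) (fun N => ?_) tail_tendsto
      rw [← norm_neg, neg_sub]
      exact norm_dg_ff_sub ht N
    have h1 : Tendsto (fun N => ⟪J x, (cfc (qq N) U) (J y)⟫_ℂ) atTop
        (𝓝 ⟪J x, (cfc ff U) (J y)⟫_ℂ) := by
      have h2 : Continuous fun A : K →L[ℂ] K => ⟪J x, A (J y)⟫_ℂ := by fun_prop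
      exact (h2.tendsto _).comp hlim1
    have h2 : Tendsto (fun N => ⟪x, dg (fun i => qq N (t i)) y⟫_ℂ) atTop
        (𝓝 ⟪x, dg (fun i => ff (t i)) y⟫_ℂ) := by
      have h3 : Continuous fun A : HS ι →L[ℂ] HS ι => ⟪x, A y⟫_ℂ := by fun_prop
      exact (h3.tendsto _).comp hlim2
    simp only [hin] at h1
    exact tendsto_nhds_unique h1 h2
  · intro ε hε
    obtain ⟨N, hN⟩ := (tail_tendsto.eventually (gt_mem_nhds hε)).exists
    refine ⟨N, co N, fun z hz => ?_, ?_⟩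
    · rw [qq_eq N hz]
      exact (ff_sub_qq hz.le N).trans hN.le
    · rw [trigOp_eq ht hr]
      exact (norm_dg_ff_sub ht N).trans hN.le

end operators

end Pool.Agent.Q186.Sch
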