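import Mathlib
import Pool.Agent.Q186.Sch.Defs
import Pool.Agent.Q186.Sch.Calc

set_option autoImplicit false

open scoped ENNReal InnerProductSpace
open Filter Topology Real

namespace Pool.Agent.Q186.Sch

/-- the point `e^{2πix}` -/
noncomputable def pt (x : ℝ) : ℂ := Complex.exp (Complex.I * ((2 * π * x : ℝ) : ℂ))

lemma norm_pt (x : ℝ) : ‖pt x‖ = 1 := by
  unfold pt; rw [mul_comm]; exact Complex.norm_exp_ofReal_mul_I _

lemma exists_pt {z : ℂ} (hz : ‖z‖ = 1) : ∃ x : ℝ, 0 ≤ x ∧ x ≤ 1 ∧ z = pt x := by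
  obtain ⟨θ, hθ⟩ := (Complex.norm_eq_one_iff z).1 hz
  refine ⟨Int.fract (θ / (2 * π)), Int.fract_nonneg _, (Int.fract_lt_one _).le, ?_⟩
  have hpi : (2 * π) ≠ 0 := by positivity
  unfold pt
  rw [← hθ, Int.fract]
  have h1 : ((2 * π * (θ / (2 * π) - ⌊θ / (2 * π)⌋) : ℝ) : ℂ) =
      (θ : ℂ) - ((⌊θ / (2 * π)⌋ : ℤ) : ℂ) * (2 * π) := by
    have : 2 * π * (θ / (2 * π) - ⌊θ / (2 * π)⌋) = θ - (⌊θ / (2 * π)⌋ : ℝ) * (2 * π) := by
      field_simp
    rw [this]; push_cast; ring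
  rw [h1, mul_sub, Complex.exp_sub]
  have h2 : Complex.exp (Complex.I * (((⌊θ / (2 * π)⌋ : ℤ) : ℂ) * (2 * π))) = 1 := by
    rw [Complex.exp_eq_one_iff]
    exact ⟨⌊θ / (2 * π)⌋, by ring⟩
  rw [h2, div_one, mul_comm]

lemma tm_pt (x : ℝ) (k : ℕ) : tm k (pt x) =
    ((2 * (1 / (((k + 1 : ℕ) : ℝ)) ^ 2) - 2 * (1 / (((k + 1 : ℕ) : ℝ)) ^ (2 * 1) *
      Real.cos (2 * π * ((k + 1 : ℕ) : ℝ) * x)) : ℝ) : ℂ) := by
  have h1 : (pt x) ^ (k + 1) + (star (pt x)) ^ (k + 1) =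
      ((2 * Real.cos (2 * π * ((k + 1 : ℕ) : ℝ) * x) : ℝ) : ℂ) := by
    have h2 : (pt x) ^ (k + 1) = Complex.exp (((2 * π * ((k + 1 : ℕ) : ℝ) * x : ℝ) : ℂ) * Complex.I) := by
      unfold pt
      rw [← Complex.exp_nat_mul]
      congr 1
      push_cast; ring
    rw [← star_pow, h2]
    have h3 : star (Complex.exp (((2 * π * ((k + 1 : ℕ) : ℝ) * x : ℝ) : ℂ) * Complex.I)) =
        Complex.exp (-(((2 * π * ((k + 1 : ℕ) : ℝ) * x : ℝ) : ℂ)) * Complex.I) := by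
      change (starRingEnd ℂ) _ = _
      rw [← Complex.exp_conj]
      congr 1
      rw [map_mul, Complex.conj_ofReal, Complex.conj_I]; ring
    rw [h3]
    have h4 : ((2 * Real.cos (2 * π * ((k + 1 : ℕ) : ℝ) * x) : ℝ) : ℂ) =
        2 * Complex.cos ((2 * π * ((k + 1 : ℕ) : ℝ) * x : ℝ) : ℂ) := by
      rw [Complex.ofReal_mul, Complex.ofReal_cos]; norm_num
    rw [h4, Complex.cos]
    ring
  unfold tm
  rw [sub_sub, h1]
  push_cast
  rw [inv_pow, one_div]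
  ring

lemma ff_pt {x : ℝ} (h0 : 0 ≤ x) (h1 : x ≤ 1) : ff (pt x) = ((2 * π ^ 2 * (x * (1 - x)) : ℝ) : ℂ) := by
  have hz := hasSum_zeta_two
  have hc := hasSum_one_div_nat_pow_mul_cos (k := 1) one_ne_zero (x := x) ⟨h0, h1⟩
  have hB : (Polynomial.map (algebraMap ℚ ℝ) (Polynomial.bernoulli (2 * 1))).eval x =
      x ^ 2 - x + 6⁻¹ := bernoulliFun_two x
  rw [hB] at hc
  have h2 := (hz.mul_left 2).sub (hc.mul_left 2)
  have h3 := (hasSum_nat_add_iff' 1).2 h2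
  have h4 : HasSum (fun k : ℕ => (2 * (1 / (((k + 1 : ℕ) : ℝ)) ^ 2) -
      2 * (1 / (((k + 1 : ℕ) : ℝ)) ^ (2 * 1) * Real.cos (2 * π * ((k + 1 : ℕ) : ℝ) * x))))
      (2 * π ^ 2 * (x * (1 - x))) := by
    have h6 : 2 * (π ^ 2 / 6) - 2 * ((-1 : ℝ) ^ (1 + 1) * (2 * π) ^ (2 * 1) / 2 / ((2 * 1).factorial : ℝ) *
        (x ^ 2 - x + 6⁻¹)) - ∑ i ∈ Finset.range 1, (2 * (1 / (i : ℝ) ^ 2) -
        2 * (1 / (i : ℝ) ^ (2 * 1) * Real.cos (2 * π * i * x))) = 2 * π ^ 2 * (x * (1 - x)) := by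
      rw [Finset.sum_range_one]
      norm_num [Nat.factorial]
      ring
    rw [← h6]
    exact h3
  have h5 := (Complex.hasSum_ofReal.2 h4).tsum_eq
  unfold ff
  rw [← h5]
  exact tsum_congr fun k => tm_pt x k

lemma norm_pt_sub (x y : ℝ) : ‖pt x - pt y‖ = 2 * |Real.sin (π * (x - y))| := by
  have h1 : pt x - pt y = pt y * (Complex.exp (Complex.I * ((2 * π * (x - y) : ℝ) : ℂ)) - 1) := by
    unfold pt
    rw [mul_sub, ← Complex.exp_add, mul_one]
    congr 2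
    push_cast; ring
  rw [h1, norm_mul, norm_pt, one_mul, Complex.norm_exp_I_mul_ofReal_sub_one, norm_mul,
    Real.norm_eq_abs, Real.norm_eq_abs, abs_two]
  congr 3
  ring

lemma sin_ineq {x y : ℝ} (hx0 : 0 ≤ x) (hx1 : x ≤ 1) (hy0 : 0 ≤ y) (hy1 : y ≤ 1) :
    2 * (|x - y| * |1 - x - y|) ≤ |Real.sin (π * (x - y))| := by
  set t := |x - y| with ht
  have ht0 : 0 ≤ t := abs_nonneg _
  have ht1 : t ≤ 1 := by rw [ht, abs_le]; constructor <;> linarith
  have hs : |Real.sin (π * (x - y))| = Real.sin (π * t) := by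
    have h1 : 0 ≤ Real.sin (π * t) :=
      Real.sin_nonneg_of_nonneg_of_le_pi (by positivity) (by nlinarith [Real.pi_pos])
    rw [ht] at h1 ⊢
    rcases abs_cases (x - y) with ⟨h, _⟩ | ⟨h, _⟩
    · rw [h] at h1 ⊢; exact abs_of_nonneg h1
    · rw [h] at h1 ⊢
      rw [mul_neg, Real.sin_neg] at h1 ⊢
      exact abs_of_nonpos (by linarith)
  rw [hs]
  have h2 : |1 - x - y| ≤ 1 - t := by
    rw [ht]
    rcases abs_cases (x - y) with ⟨h, _⟩ | ⟨h, _⟩ <;> rw [h, abs_le] <;> constructor <;> linarith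
  have h3 : t * |1 - x - y| ≤ t * (1 - t) := mul_le_mul_of_nonneg_left h2 ht0
  rcases le_total t (1 / 2) with h | h
  · have h4 := Real.mul_le_sin (x := π * t) (by positivity) (by nlinarith [Real.pi_pos])
    have h5 : 2 / π * (π * t) = 2 * t := by field_simp
    rw [h5] at h4
    nlinarith
  · have h4 := Real.mul_le_sin (x := π * (1 - t)) (mul_nonneg Real.pi_pos.le (by linarith))
      (by nlinarith [Real.pi_pos])
    have h5 : 2 / π * (π * (1 - t)) = 2 * (1 - t) := by field_simp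
    rw [h5] at h4
    have h6 : Real.sin (π * (1 - t)) = Real.sin (π * t) := by
      rw [mul_sub, mul_one, Real.sin_pi_sub]
    rw [h6] at h4
    nlinarith

theorem ff_lip : LipOnCircle ff := by
  refine ⟨π ^ 2 / 2, fun z w hz hw => ?_⟩
  obtain ⟨x, hx0, hx1, rfl⟩ := exists_pt hz
  obtain ⟨y, hy0, hy1, rfl⟩ := exists_pt hw
  rw [ff_pt hx0 hx1, ff_pt hy0 hy1, ← Complex.ofReal_sub, Complex.norm_real, norm_pt_sub,
    Real.norm_eq_abs]
  have h1 : 2 * π ^ 2 * (x * (1 - x)) - 2 * π ^ 2 * (y * (1 - y)) =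
      2 * π ^ 2 * ((x - y) * (1 - x - y)) := by ring
  rw [h1, abs_mul, abs_mul (x - y), abs_of_nonneg (by positivity : 0 ≤ 2 * π ^ 2)]
  have h2 := sin_ineq hx0 hx1 hy0 hy1
  nlinarith [sq_nonneg π]

lemma pt_zero : pt 0 = 1 := by unfold pt; simp

lemma pt_half : pt (1 / 2) = -1 := by
  unfold pt
  have : Complex.I * ((2 * π * (1 / 2) : ℝ) : ℂ) = (π : ℂ) * Complex.I := by push_cast; ring
  rw [this, Complex.exp_pi_mul_I]

lemma ff_one : ff 1 = 0 := by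
  have := ff_pt (x := 0) le_rfl zero_le_one
  rw [pt_zero] at this
  rw [this]; simp

lemma ff_neg_one : ff (-1) = ((π ^ 2 / 2 : ℝ) : ℂ) := by
  have := ff_pt (x := 1 / 2) (by norm_num) (by norm_num)
  rw [pt_half] at this
  rw [this]; congr 1; ring

theorem ff_not_disk : ¬ InDiskAlgebra ff := by
  rintro ⟨g, hgc, hgd, hgf⟩
  have hreal : ∀ z : ℂ, ‖z‖ = 1 → (g z).im = 0 := by
    intro z hz
    obtain ⟨x, hx0, hx1, rfl⟩ := exists_pt hz
    rw [hgf _ hz, ff_pt hx0 hx1, Complex.ofReal_im]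
  have key : ∀ c : ℝ, ∀ z ∈ Metric.closedBall (0 : ℂ) 1,
      ‖Complex.exp (Complex.I * ((c : ℂ) * g z))‖ ≤ 1 := by
    intro c z hz
    have hd : DiffContOnCl ℂ (fun z => Complex.exp (Complex.I * ((c : ℂ) * g z)))
        (Metric.ball 0 1) := by
      refine DiffContOnCl.mk ?_ ?_
      · exact Complex.differentiable_exp.comp_differentiableOn
          ((hgd.const_mul _).const_mul _)
      · rw [closure_ball _ one_ne_zero]
        exact Complex.continuous_exp.comp_continuousOn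
          (continuousOn_const.mul (continuousOn_const.mul hgc))
    refine Complex.norm_le_of_forall_mem_frontier_norm_le Metric.isBounded_ball hd ?_
      (by rw [closure_ball _ one_ne_zero]; exact hz)
    intro w hw
    rw [frontier_ball _ one_ne_zero, mem_sphere_zero_iff_norm] at hw
    rw [Complex.norm_exp]
    have : (Complex.I * ((c : ℂ) * g w)).re = 0 := by
      simp [hreal w hw]
    rw [this, Real.exp_zero]
  set G : ℂ → ℂ := fun z => Complex.exp (Complex.I * (((1 / π : ℝ) : ℂ) * g z)) with hG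
  have hd : DiffContOnCl ℂ G (Metric.ball 0 1) := by
    refine DiffContOnCl.mk ?_ ?_
    · exact Complex.differentiable_exp.comp_differentiableOn ((hgd.const_mul _).const_mul _)
    · rw [closure_ball _ one_ne_zero]
      exact Complex.continuous_exp.comp_continuousOn
        (continuousOn_const.mul (continuousOn_const.mul hgc))
  have hG0 : 1 ≤ ‖G 0‖ := by
    have h1 := key (-(1 / π)) 0 (by simp)
    have h2 : Complex.exp (Complex.I * (((-(1 / π) : ℝ) : ℂ) * g 0)) = (G 0)⁻¹ := by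
      rw [hG]
      simp only
      rw [← Complex.exp_neg]
      congr 1
      push_cast; ring
    rw [h2, norm_inv] at h1
    have h3 : 0 < ‖G 0‖ := norm_pos_iff.2 (Complex.exp_ne_zero _)
    exact (inv_le_one₀ h3).1 h1
  have hmax : IsMaxOn (norm ∘ G) (Metric.ball 0 1) 0 := by
    intro z hz
    exact (key (1 / π) z (Metric.ball_subset_closedBall hz)).trans hG0
  have hconst := Complex.eqOn_closedBall_of_isMaxOn_norm hd hmax
  have h1 : G 1 = G 0 := hconst (by simp)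
  have h2 : G (-1) = G 0 := hconst (by simp)
  have h3 : G 1 = G (-1) := h1.trans h2.symm
  rw [hG] at h3
  simp only at h3
  rw [hgf 1 (by simp), hgf (-1) (by simp), ff_one, ff_neg_one] at h3
  have h4 : Complex.I * (((1 / π : ℝ) : ℂ) * ((π ^ 2 / 2 : ℝ) : ℂ)) = (π : ℂ) / 2 * Complex.I := by
    have hpi : (π : ℂ) ≠ 0 := by exact_mod_cast Real.pi_ne_zero
    push_cast
    field_simp
  rw [h4, Complex.exp_pi_div_two_mul_I, mul_zero, mul_zero, Complex.exp_zero] at h3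
  have := congrArg Complex.re h3
  simp at this

/-! ### The lower bound at the real points -/

lemma pow_le {δ : ℝ} (h0 : 0 ≤ δ) (h1 : δ ≤ 1) {n : ℕ} (hn : n * δ ≤ 1) :
    n * δ / 2 ≤ 1 - (1 - δ) ^ n := by
  have h2 : 1 + n * δ ≤ (1 + δ) ^ n := one_add_mul_le_pow (by linarith) n
  have h3 : (1 - δ) ^ n * (1 + δ) ^ n ≤ 1 := by
    rw [← mul_pow]
    exact pow_le_one₀ (by nlinarith) (by nlinarith)
  have h4 : 0 ≤ (1 - δ) ^ n := pow_nonneg (by linarith) n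
  have h5 : (1 - δ) ^ n * (1 + n * δ) ≤ 1 := (mul_le_mul_of_nonneg_left h2 h4).trans h3
  have hnd : 0 ≤ n * δ := by positivity
  have h6 : (1 - δ) ^ n ≤ 1 := pow_le_one₀ (by linarith) (by linarith)
  nlinarith

lemma tm_real {r : ℝ} (k : ℕ) : tm k (r : ℂ) =
    ((2 * (1 / (((k + 1 : ℕ) : ℝ)) ^ 2) * (1 - r ^ (k + 1)) : ℝ) : ℂ) := by
  unfold tm
  have : star (r : ℂ) = (r : ℂ) := Complex.conj_ofReal r
  rw [this]
  push_cast
  rw [inv_pow, one_div]
  ring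

/-- `|f(1 - 2^{-m})| ≥ m 2^{-m} log 2` -/
lemma ff_lower (m : ℕ) : Real.log 2 * m * (1 / 2) ^ m ≤ ‖ff ((1 - (1 / 2) ^ m : ℝ) : ℂ)‖ := by
  set δ : ℝ := (1 / 2) ^ m with hδ
  have hδ0 : 0 < δ := by positivity
  have hδ1 : δ ≤ 1 := pow_le_one₀ (by norm_num) (by norm_num)
  have hr : ‖((1 - δ : ℝ) : ℂ)‖ ≤ 1 := by
    rw [Complex.norm_real, Real.norm_eq_abs, abs_le]; constructor <;> linarith
  have hsum := (tm_summable hr).hasSum
  set u : ℕ → ℝ := fun k => 2 * (1 / (((k + 1 : ℕ) : ℝ)) ^ 2) * (1 - (1 - δ) ^ (k + 1)) with hu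
  have hu0 : ∀ k, 0 ≤ u k := by
    intro k
    have : (1 - δ) ^ (k + 1) ≤ 1 := pow_le_one₀ (by linarith) (by linarith)
    rw [hu]
    simp only
    have : 0 ≤ 1 - (1 - δ) ^ (k + 1) := by linarith
    positivity
  have hub : ∀ k, ‖u k‖ ≤ bd k := by
    intro k
    have h := tm_le hr k
    rw [tm_real, Complex.norm_real] at h
    exact h
  have hus : Summable u := Summable.of_norm_bounded bd_summable hub
  have h1 : ff ((1 - δ : ℝ) : ℂ) = ((∑' k, u k : ℝ) : ℂ) := by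
    unfold ff
    rw [Complex.ofReal_tsum]
    exact tsum_congr fun k => tm_real k
  rw [h1, Complex.norm_real, Real.norm_of_nonneg (tsum_nonneg hu0)]
  have h2 : ∑ k ∈ Finset.range (2 ^ m), u k ≤ ∑' k, u k :=
    hus.sum_le_tsum _ fun k _ => hu0 k
  have h3 : ∀ k ∈ Finset.range (2 ^ m), δ * (((k + 1 : ℕ) : ℝ))⁻¹ ≤ u k := by
    intro k hk
    have hk1 : ((k + 1 : ℕ) : ℝ) ≤ 2 ^ m := by
      exact_mod_cast Finset.mem_range.1 hk
    have hk2 : ((k + 1 : ℕ) : ℝ) * δ ≤ 1 := by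
      rw [hδ]
      calc ((k + 1 : ℕ) : ℝ) * (1 / 2) ^ m ≤ 2 ^ m * (1 / 2) ^ m := by gcongr
        _ = 1 := by rw [← mul_pow]; norm_num
    have h4 := pow_le hδ0.le hδ1 hk2
    have hk3 : (0 : ℝ) < ((k + 1 : ℕ) : ℝ) := by positivity
    rw [hu]
    simp only
    calc δ * (((k + 1 : ℕ) : ℝ))⁻¹ = 2 * (1 / ((k + 1 : ℕ) : ℝ) ^ 2) * (((k + 1 : ℕ) : ℝ) * δ / 2) := by
          field_simp
      _ ≤ _ := by gcongr
  have h5 : δ * ∑ k ∈ Finset.range (2 ^ m), (((k + 1 : ℕ) : ℝ))⁻¹ ≤ ∑ k ∈ Finset.range (2 ^ m), u k := by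
    rw [Finset.mul_sum]
    exact Finset.sum_le_sum h3
  have h6 : Real.log 2 * m ≤ ∑ k ∈ Finset.range (2 ^ m), (((k + 1 : ℕ) : ℝ))⁻¹ := by
    have h7 := log_add_one_le_harmonic (2 ^ m)
    have h8 : ((harmonic (2 ^ m) : ℚ) : ℝ) = ∑ k ∈ Finset.range (2 ^ m), (((k + 1 : ℕ) : ℝ))⁻¹ := by
      unfold harmonic
      push_cast
      rfl
    rw [h8] at h7
    refine le_trans ?_ h7
    have h9 : Real.log 2 * m = Real.log (2 ^ m) := by rw [Real.log_pow]; ring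
    rw [h9]
    apply Real.log_le_log (by positivity)
    push_cast
    linarith
  calc Real.log 2 * m * δ = δ * (Real.log 2 * m) := by ring
    _ ≤ δ * ∑ k ∈ Finset.range (2 ^ m), (((k + 1 : ℕ) : ℝ))⁻¹ := by gcongr
    _ ≤ _ := h5.trans h2

end Pool.Agent.Q186.Sch
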