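import Mathlib
import Pool.Agent.Q186.Sch.Defs
import Pool.Agent.Q186.Sch.Calc
import Pool.Agent.Q186.Sch.Fun

set_option autoImplicit false

open scoped ENNReal InnerProductSpace
open Filter Topology

namespace Pool.Agent.Q186.Sch

/-- block lengths -/
noncomputable def NN (p : ℝ) (j : ℕ) : ℕ := ⌈(2 : ℝ) ^ (((j : ℝ) + 1) * p) / ((j : ℝ) + 1) ^ 2⌉₊

lemma NN_pos (p : ℝ) (j : ℕ) : 0 < NN p j := Nat.ceil_pos.2 (by positivity)

/-- the index set -/
abbrev Ix (p : ℝ) : Type := Σ j : ℕ, Fin (NN p j)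

/-- the points `1 - 2 ^ {-(j+1)}` -/
noncomputable def rr (j : ℕ) : ℝ := 1 - (1 / 2) ^ (j + 1)

lemma rr_norm (j : ℕ) : ‖((rr j : ℝ) : ℂ)‖ ≤ 1 := by
  rw [Complex.norm_real, Real.norm_eq_abs, abs_le]
  have h1 : (0 : ℝ) ≤ (1 / 2) ^ (j + 1) := by positivity
  have h2 : ((1 : ℝ) / 2) ^ (j + 1) ≤ 1 := pow_le_one₀ (by norm_num) (by norm_num)
  unfold rr
  constructor <;> linarith

/-- the diagonal of `T0 n` -/
noncomputable def tt (p : ℝ) (n : ℕ) (i : Ix p) : ℂ := if i.1 < n then ((rr i.1 : ℝ) : ℂ) else 1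

lemma tt_norm (p : ℝ) (n : ℕ) (i : Ix p) : ‖tt p n i‖ ≤ 1 := by
  unfold tt
  split_ifs
  · exact rr_norm _
  · simp

lemma tt_star (p : ℝ) (n : ℕ) (i : Ix p) : star (tt p n i) = tt p n i := by
  unfold tt
  split_ifs
  · exact Complex.conj_ofReal _
  · simp

/-- the finite set of indices where `T0 n` differs from `1` -/
noncomputable def SS (p : ℝ) (n : ℕ) : Finset (Ix p) := (Finset.range n).sigma fun _ => Finset.univ

lemma mem_SS {p : ℝ} {n : ℕ} {i : Ix p} : i ∈ SS p n ↔ i.1 < n := by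
  unfold SS
  rw [Finset.mem_sigma]
  simp

lemma sum_SS (p : ℝ) (n : ℕ) (b : ℕ → ℝ) :
    ∑ i ∈ SS p n, b i.1 = ∑ j ∈ Finset.range n, (NN p j : ℝ) * b j := by
  unfold SS
  rw [Finset.sum_sigma]
  refine Finset.sum_congr rfl fun j _ => ?_
  simp

/-- `2 ^ {-(j+1)p}` -/
noncomputable def ww (p : ℝ) (j : ℕ) : ℝ := ((1 / 2 : ℝ) ^ (j + 1)) ^ p

lemma ww_pos (p : ℝ) (j : ℕ) : 0 < ww p j := by unfold ww; positivity

lemma ww_mul (p : ℝ) (j : ℕ) : (2 : ℝ) ^ (((j : ℝ) + 1) * p) * ww p j = 1 := by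
  unfold ww
  have h1 : (2 : ℝ) ^ (((j : ℝ) + 1) * p) = ((2 : ℝ) ^ (j + 1)) ^ p := by
    rw [← Real.rpow_natCast 2 (j + 1), ← Real.rpow_mul (by norm_num)]
    push_cast; rfl
  rw [h1, ← Real.mul_rpow (by positivity) (by positivity), ← mul_pow]
  norm_num

lemma ww_le {p : ℝ} (hp : 1 < p) (j : ℕ) : ww p j ≤ (1 / 2 : ℝ) ^ (j + 1) := by
  unfold ww
  have h := Real.rpow_le_rpow_of_exponent_ge (x := ((1 / 2 : ℝ) ^ (j + 1))) (by positivity)
    (pow_le_one₀ (by norm_num) (by norm_num)) hp.le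
  rwa [Real.rpow_one] at h

lemma NN_mul_le {p : ℝ} (hp : 1 < p) (j : ℕ) :
    (NN p j : ℝ) * ww p j ≤ 1 / (((j + 1 : ℕ) : ℝ)) ^ 2 + (1 / 2 : ℝ) ^ (j + 1) := by
  have h1 : (NN p j : ℝ) < (2 : ℝ) ^ (((j : ℝ) + 1) * p) / ((j : ℝ) + 1) ^ 2 + 1 :=
    Nat.ceil_lt_add_one (by positivity)
  have h2 := ww_pos p j
  calc (NN p j : ℝ) * ww p j ≤ ((2 : ℝ) ^ (((j : ℝ) + 1) * p) / ((j : ℝ) + 1) ^ 2 + 1) * ww p j := by
        gcongr
    _ = ((2 : ℝ) ^ (((j : ℝ) + 1) * p) * ww p j) / ((j : ℝ) + 1) ^ 2 + ww p j := by ring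
    _ = 1 / (((j + 1 : ℕ) : ℝ)) ^ 2 + ww p j := by rw [ww_mul]; push_cast; rfl
    _ ≤ _ := by gcongr; exact ww_le hp j

lemma le_NN_mul (p : ℝ) (j : ℕ) : 1 / (((j : ℝ) + 1)) ^ 2 ≤ (NN p j : ℝ) * ww p j := by
  have h1 : (2 : ℝ) ^ (((j : ℝ) + 1) * p) / ((j : ℝ) + 1) ^ 2 ≤ (NN p j : ℝ) := Nat.le_ceil _
  have h2 := ww_pos p j
  calc 1 / (((j : ℝ) + 1)) ^ 2 = ((2 : ℝ) ^ (((j : ℝ) + 1) * p) * ww p j) / ((j : ℝ) + 1) ^ 2 := by
        rw [ww_mul]
    _ = (2 : ℝ) ^ (((j : ℝ) + 1) * p) / ((j : ℝ) + 1) ^ 2 * ww p j := by ring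
    _ ≤ _ := by gcongr

/-- the values of `‖f(t)‖ ^ p` -/
noncomputable def bb (p : ℝ) (j : ℕ) : ℝ := ‖ff ((rr j : ℝ) : ℂ)‖ ^ p

lemma bb_nonneg (p : ℝ) (j : ℕ) : 0 ≤ bb p j := by unfold bb; positivity

lemma le_bb {p : ℝ} (hp : 1 < p) (j : ℕ) :
    (Real.log 2) ^ p * ((j : ℝ) + 1) ^ p * ww p j ≤ bb p j := by
  unfold bb
  have h := ff_lower (j + 1)
  have hl : 0 ≤ Real.log 2 := Real.log_nonneg (by norm_num)
  have h1 : (Real.log 2) ^ p * ((j : ℝ) + 1) ^ p * ww p j =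
      (Real.log 2 * ((j + 1 : ℕ) : ℝ) * (1 / 2) ^ (j + 1)) ^ p := by
    unfold ww
    rw [Real.mul_rpow (by positivity) (by positivity), Real.mul_rpow hl (by positivity)]
    push_cast; rfl
  rw [h1]
  exact Real.rpow_le_rpow (by positivity) h (by linarith)

lemma le_term {p : ℝ} (hp : 1 < p) (j : ℕ) :
    (Real.log 2) ^ p * (1 / ((j : ℝ) + 1)) ≤ (NN p j : ℝ) * bb p j := by
  have hl : 0 ≤ Real.log 2 := Real.log_nonneg (by norm_num)
  have h0 : (1 : ℝ) ≤ (j : ℝ) + 1 := by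
    have : (0 : ℝ) ≤ (j : ℝ) := Nat.cast_nonneg j
    linarith
  have h1 : (j : ℝ) + 1 ≤ ((j : ℝ) + 1) ^ p := by
    have h := Real.rpow_le_rpow_of_exponent_le h0 hp.le
    rwa [Real.rpow_one] at h
  calc (Real.log 2) ^ p * (1 / ((j : ℝ) + 1))
      = (Real.log 2) ^ p * ((j : ℝ) + 1) * (1 / ((j : ℝ) + 1) ^ 2) := by
        field_simp
    _ ≤ (Real.log 2) ^ p * ((j : ℝ) + 1) ^ p * ((NN p j : ℝ) * ww p j) := by
        gcongr
        exact le_NN_mul p j
    _ = (NN p j : ℝ) * ((Real.log 2) ^ p * ((j : ℝ) + 1) ^ p * ww p j) := by ring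
    _ ≤ _ := by gcongr; exact le_bb hp j

/-- the sum of the `p`-th powers of the singular values of `f(T1) - f(T0 n)` -/
noncomputable def BB (p : ℝ) (n : ℕ) : ℝ := ∑ j ∈ Finset.range n, (NN p j : ℝ) * bb p j

lemma BB_mono (p : ℝ) : Monotone (BB p) := by
  refine monotone_nat_of_le_succ fun n => ?_
  unfold BB
  rw [Finset.sum_range_succ]
  have : 0 ≤ (NN p n : ℝ) * bb p n := mul_nonneg (Nat.cast_nonneg _) (bb_nonneg _ _)
  linarith

lemma BB_tendsto {p : ℝ} (hp : 1 < p) : Tendsto (BB p) atTop atTop := by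
  have hl : 0 < (Real.log 2) ^ p := Real.rpow_pos_of_pos (Real.log_pos (by norm_num)) _
  have h1 := Real.tendsto_sum_range_one_div_nat_succ_atTop.const_mul_atTop hl
  refine tendsto_atTop_mono (fun n => ?_) h1
  unfold BB
  rw [Finset.mul_sum]
  exact Finset.sum_le_sum fun j _ => le_term hp j

theorem badSequence {p : ℝ} (hp : 1 < p) : BadSequence (HS (Ix p)) p ff := by
  have hp0 : (0 : ℝ) < p := by linarith
  have hone : ∀ i : Ix p, ‖(1 : ℂ)‖ ≤ 1 := fun _ => by simp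
  have hb : ∀ n, Bdd (tt p n) := fun n => ⟨1, tt_norm p n⟩
  have hbf : ∀ n, Bdd (fun i => ff (tt p n i)) := fun n => by
    refine ⟨∑' k, bd k, fun i => ?_⟩
    exact tsum_of_norm_bounded bd_summable.hasSum (tm_le (tt_norm p n i))
  have hnorm : ∀ n, ‖dg (tt p n)‖ = 1 := by
    intro n
    apply le_antisymm (norm_dg_le zero_le_one (tt_norm p n))
    have h1 := (dg (tt p n)).le_opNorm (lp.single 2 (⟨n, ⟨0, NN_pos p n⟩⟩ : Ix p) (1 : ℂ) : HS (Ix p))
    rw [dg_single (hb n)] at h1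
    have h2 : tt p n ⟨n, ⟨0, NN_pos p n⟩⟩ = 1 := by
      unfold tt; rw [if_neg (lt_irrefl n)]
    rw [h2, one_smul, lp.norm_single (by norm_num), norm_one, mul_one] at h1
    exact h1
  have hdiff : ∀ n, schatten p (dg (fun _ : Ix p => (1 : ℂ)) - dg (tt p n)) =
      (ENNReal.ofReal (∑ j ∈ Finset.range n, (NN p j : ℝ) * ww p j)) ^ (1 / p) := by
    intro n
    rw [← dg_sub (Bdd.const 1) (hb n), schatten_dg (SS p n) ((Bdd.const 1).sub (hb n)) ?_ hp.le,
      ← sum_SS]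
    · congr 2
      refine Finset.sum_congr rfl fun i hi => ?_
      have hi' := mem_SS.1 hi
      unfold tt ww
      rw [if_pos hi']
      congr 1
      rw [← Complex.ofReal_one, ← Complex.ofReal_sub, Complex.norm_real]
      unfold rr
      rw [sub_sub_cancel, Real.norm_of_nonneg (by positivity)]
    · intro i hi
      have hi' : ¬ i.1 < n := fun h => hi (mem_SS.2 h)
      unfold tt
      rw [if_neg hi', sub_self]
  have hfdiff : ∀ n, schatten p (dg (fun _ : Ix p => ff 1) - dg (fun i => ff (tt p n i))) =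
      (ENNReal.ofReal (BB p n)) ^ (1 / p) := by
    intro n
    rw [← dg_sub (Bdd.const _) (hbf n), schatten_dg (SS p n) ((Bdd.const _).sub (hbf n)) ?_ hp.le]
    · unfold BB
      rw [← sum_SS]
      congr 2
      refine Finset.sum_congr rfl fun i hi => ?_
      have hi' := mem_SS.1 hi
      unfold tt bb
      rw [if_pos hi', ff_one, zero_sub, norm_neg]
    · intro i hi
      have hi' : ¬ i.1 < n := fun h => hi (mem_SS.2 h)
      unfold tt
      rw [if_neg hi', sub_self]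
  refine ⟨dg (fun _ => 1), dg (fun _ => ff 1), fun n => dg (tt p n),
    fun n => dg (fun i => ff (tt p n i)), norm_dg_le zero_le_one hone, fun n => (hnorm n).le,
    isCalc_dg hone (fun _ => star_one ℂ), fun n => isCalc_dg (tt_norm p n) (tt_star p n),
    ?_, ?_, ?_, ?_, ?_⟩
  · have hs1 : Summable fun j : ℕ => 1 / (((j + 1 : ℕ) : ℝ)) ^ 2 :=
      (summable_nat_add_iff 1).2 (Real.summable_one_div_nat_pow.2 (by norm_num))
    have hs2 : Summable fun j : ℕ => (1 / 2 : ℝ) ^ (j + 1) :=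
      (summable_nat_add_iff 1).2 (summable_geometric_of_lt_one (by norm_num) (by norm_num))
    have hs := hs1.add hs2
    refine lt_of_le_of_lt (b := (ENNReal.ofReal (∑' j : ℕ, (1 / (((j + 1 : ℕ) : ℝ)) ^ 2 +
      (1 / 2 : ℝ) ^ (j + 1)))) ^ (1 / p)) (iSup_le fun n => ?_) ?_
    · rw [hdiff n]
      refine ENNReal.rpow_le_rpow (ENNReal.ofReal_le_ofReal ?_) (by positivity)
      calc ∑ j ∈ Finset.range n, (NN p j : ℝ) * ww p j
          ≤ ∑ j ∈ Finset.range n, (1 / (((j + 1 : ℕ) : ℝ)) ^ 2 + (1 / 2 : ℝ) ^ (j + 1)) :=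
            Finset.sum_le_sum fun j _ => NN_mul_le hp j
        _ ≤ _ := hs.sum_le_tsum _ fun j _ => by positivity
    · exact ENNReal.rpow_lt_top_of_nonneg (by positivity) ENNReal.ofReal_ne_top
  · intro n m _
    simp only [hnorm]
    exact le_rfl
  · simp only [hnorm]
    exact tendsto_const_nhds
  · intro n m hnm
    simp only [hfdiff]
    exact ENNReal.rpow_le_rpow (ENNReal.ofReal_le_ofReal (BB_mono p hnm)) (by positivity)
  · simp only [hfdiff]
    exact (ENNReal.tendsto_rpow_at_top (by positivity)).comp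
      (ENNReal.tendsto_ofReal_atTop.comp (BB_tendsto hp))

lemma separable_HS (ι : Type) [Countable ι] : TopologicalSpace.SeparableSpace (HS ι) := by
  have b : HilbertBasis ι ℂ (HS ι) := HilbertBasis.ofRepr (LinearIsometryEquiv.refl ℂ _)
  have h1 : TopologicalSpace.IsSeparable
      ((Submodule.span ℂ (Set.range b)).topologicalClosure : Set (HS ι)) := by
    rw [Submodule.topologicalClosure_coe]
    exact ((Set.countable_range b).isSeparable.span (R := ℂ)).closure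
  rw [b.dense_span] at h1
  exact TopologicalSpace.isSeparable_univ_iff.1 (by simpa using h1)

theorem final : ∃ f : ℂ → ℂ, LipOnCircle f ∧ ¬ InDiskAlgebra f ∧ ∀ p : ℝ, 1 < p →
    ∃ (H : Type) (_ : NormedAddCommGroup H) (_ : InnerProductSpace ℂ H) (_ : CompleteSpace H)
      (_ : TopologicalSpace.SeparableSpace H), BadSequence H p f :=
  ⟨ff, ff_lip, ff_not_disk, fun p hp => ⟨HS (Ix p), inferInstance, inferInstance, inferInstance,
    separable_HS (Ix p), badSequence hp⟩⟩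

end Pool.Agent.Q186.Sch
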